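import Pool.Agent.H.MP_1b0e60_al.Final

/-!
# MP_1b0e60_al, Q1: the answer is positive

Every injective homomorphism from `F_2` to a free group is isometric for stable commutator length.

Outline of the proof. It is enough to treat an injective endomorphism `φ` of `F_2`. Chains of loops
in the coset graph of `H = φ(F_2)` are encoded by permutations with a pairing of inverse letters;
surfaces mapped to the graph of `F_2` are pairings which only respect the letters, surfaces mapped
to the coset graph are pairings which respect the edges.

1. `H` is closed in the topology given by the derived series `D_m` of `F_2`: the closure `M` of `H`
   satisfies `M = H [M, M]`, so it has rank two, and a dense subgroup of rank two is the whole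
   group, by Fox calculus in skew Laurent series rings over the left orderable groups `F_2 / D_m`.
2. So a finite piece `V` of the coset graph which carries `H` embeds into the graph of cosets of
   `H D_m`, for `m` large. Over the cover of the graph with group `G = F_2 / D_m` a surface can be
   cut, starting at the top level with respect to the left order of `G`: on each level at most one
   vertex of `V` has essential loops below both of its lower edges (a count with Folner sets, since
   the Euler characteristic of `V` is at least `-1`), the loops through the other vertices of the
   level are powers of one loop and can be removed, and after that the pieces of the surface at the
   top are respected by the pairing.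
3. Folner sets in `G` carry the result down to `V`.
-/

set_option autoImplicit false

open SclIso

namespace Pool.Agent.Results.MP_1b0e60_al.InjectiveIsometric

/-- **Every injective homomorphism from the free group `F_2` to a free group `F` is isometric:
`scl_F (φ_* Γ) = scl_{F_2} Γ` for every `Γ` in `B_1^H(F_2)`.** -/
theorem result.{u} : ∀ (F : Type u) [Group F] [IsFreeGroup F] (φ : FreeGroup (Fin 2) →* F),
    Function.Injective φ → IsIsometric φ :=
  fun _ _ _ φ hφ => isIsometric_of_injective φ hφ

end Pool.Agent.Results.MP_1b0e60_al.InjectiveIsometric
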